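import Pool.Agent.Helper53_TrInd.Miranda

/-!
# Free sets of homeomorphisms of the plane at bounded distance from translations

`chord`: minimal chord argument. `free_convex`: if `B` is convex and `G(B)` is disjoint from `B`,
then all iterates of `B` are pairwise disjoint.
-/

set_option autoImplicit false

namespace Pool.Agent.Helper18_AR

open Set Topology

/-- crossing lemma: a curve from left to right and a path from bottom to top meet -/
theorem cross (γ : ℝ → ℝ × ℝ) (β : unitInterval → ℝ × ℝ) (hγ : Continuous γ) (hβ : Continuous β)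
    (a b : ℝ) (hab : a ≤ b)
    (h1 : ∀ t, (γ a).1 ≤ (β t).1) (h2 : ∀ t, (β t).1 ≤ (γ b).1)
    (h3 : ∀ s ∈ Icc a b, (β 0).2 ≤ (γ s).2) (h4 : ∀ s ∈ Icc a b, (γ s).2 ≤ (β 1).2) :
    ∃ s t, γ s = β t := by
  have hI : ∀ x : Icc (0 : Fin 2 → ℝ) 1, x.1 1 ∈ Icc (0 : ℝ) 1 := fun x => ⟨x.2.1 1, x.2.2 1⟩
  have hI0 : ∀ x : Icc (0 : Fin 2 → ℝ) 1, x.1 0 ∈ Icc (0 : ℝ) 1 := fun x => ⟨x.2.1 0, x.2.2 0⟩
  let S : Icc (0 : Fin 2 → ℝ) 1 → ℝ := fun x => a + x.1 0 * (b - a)
  let T : Icc (0 : Fin 2 → ℝ) 1 → unitInterval := fun x => ⟨x.1 1, hI x⟩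
  have hS : Continuous S := by
    have : Continuous fun x : Icc (0 : Fin 2 → ℝ) 1 => x.1 0 :=
      (continuous_apply 0).comp continuous_subtype_val
    exact continuous_const.add (this.mul continuous_const)
  have hT : Continuous T := by
    refine Continuous.subtype_mk ?_ _
    exact (continuous_apply 1).comp continuous_subtype_val
  have hSI : ∀ x, S x ∈ Icc a b := fun x => by
    obtain ⟨u, v⟩ := hI0 x
    constructor
    · show a ≤ a + x.1 0 * (b - a)
      nlinarith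
    · show a + x.1 0 * (b - a) ≤ b
      nlinarith
  obtain ⟨x, hx⟩ := Pool.Agent.Helper53_TrInd.miranda (ι := Fin 2)
    (fun i x => if i = 0 then (γ (S x)).1 - (β (T x)).1 else (β (T x)).2 - (γ (S x)).2)
    (fun i => by
      by_cases hi : i = 0
      · simp only [hi, if_true]
        exact (continuous_fst.comp (hγ.comp hS)).sub (continuous_fst.comp (hβ.comp hT))
      · simp only [hi, if_false]
        exact (continuous_snd.comp (hβ.comp hT)).sub (continuous_snd.comp (hγ.comp hS)))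
    (fun i x hx => by
      by_cases hi : i = 0
      · subst hi
        have : S x = a := by show a + x.1 0 * (b - a) = a; rw [hx]; ring
        simp only [if_true, this]
        linarith [h1 (T x)]
      · have hi1 : i = 1 := by omega
        subst hi1
        have : T x = 0 := Subtype.ext hx
        simp only [hi, if_false, this]
        linarith [h3 _ (hSI x)])
    (fun i x hx => by
      by_cases hi : i = 0
      · subst hi
        have : S x = b := by show a + x.1 0 * (b - a) = b; rw [hx]; ring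
        simp only [if_true, this]
        linarith [h2 (T x)]
      · have hi1 : i = 1 := by omega
        subst hi1
        have : T x = 1 := Subtype.ext hx
        simp only [hi, if_false, this]
        linarith [h4 _ (hSI x)])
  refine ⟨S x, T x, Prod.ext ?_ ?_⟩
  · have := hx 0
    simp only [if_true] at this
    linarith
  · have := hx 1
    simp only [one_ne_zero, if_false] at this
    linarith

/-- a curve at bounded distance of the horizontal axis, run through with speed about `κ` -/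
structure Ln (κ C : ℝ) (γ : ℝ → ℝ × ℝ) : Prop where
  cont : Continuous γ
  fst : ∀ x, |(γ x).1 - κ * x| ≤ C
  snd : ∀ x, |(γ x).2| ≤ C

/-- the points which are joined in the complement of `L` to all points far up -/
def Up (L : Set (ℝ × ℝ)) : Set (ℝ × ℝ) := {z | ∃ R : ℝ, ∀ p : ℝ × ℝ, R ≤ p.2 → JoinedIn Lᶜ p z}

/-- the points which are joined in the complement of `L` to all points far down -/
def Dn (L : Set (ℝ × ℝ)) : Set (ℝ × ℝ) := {z | ∃ R : ℝ, ∀ p : ℝ × ℝ, p.2 ≤ R → JoinedIn Lᶜ p z}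

theorem not_mem_of_up {L : Set (ℝ × ℝ)} {z : ℝ × ℝ} (h : z ∈ Up L) : z ∉ L := by
  obtain ⟨R, hR⟩ := h
  exact (hR (0, R) le_rfl).target_mem

theorem sep {κ C : ℝ} (hκ : 0 < κ) {γ : ℝ → ℝ × ℝ} (h : Ln κ C γ) :
    Disjoint (Up (range γ)) (Dn (range γ)) := by
  rw [Set.disjoint_left]
  rintro z ⟨R, hR⟩ ⟨R', hR'⟩
  have hC : 0 ≤ C := (abs_nonneg _).trans (h.snd 0)
  have j1 := hR (0, max R C) (le_max_left _ _)
  have j2 := hR' (0, min R' (-C)) (min_le_left _ _)
  have j := j2.trans j1.symm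
  obtain ⟨β, hβ⟩ := j
  -- bounds for the first coordinate of the path
  have hcomp : IsCompact (range fun t => (β t).1) := isCompact_range (continuous_fst.comp β.continuous)
  obtain ⟨m, hm⟩ := hcomp.bddBelow
  obtain ⟨M, hM⟩ := hcomp.bddAbove
  have hm' : ∀ t, m ≤ (β t).1 := fun t => hm ⟨t, rfl⟩
  have hM' : ∀ t, (β t).1 ≤ M := fun t => hM ⟨t, rfl⟩
  have hmM : m ≤ M := (hm' 0).trans (hM' 0)
  obtain ⟨s, t, hst⟩ := cross γ β h.cont β.continuous ((m - C) / κ) ((M + C) / κ)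
    (by
      apply div_le_div_of_nonneg_right _ hκ.le
      linarith)
    (fun t => by
      have := (abs_le.1 (h.fst ((m - C) / κ))).2
      rw [mul_div_cancel₀ _ hκ.ne'] at this
      linarith [hm' t])
    (fun t => by
      have := (abs_le.1 (h.fst ((M + C) / κ))).1
      rw [mul_div_cancel₀ _ hκ.ne'] at this
      linarith [hM' t])
    (fun s _ => by
      rw [β.source]
      have := (abs_le.1 (h.snd s)).1
      exact (min_le_right _ _).trans this)
    (fun s _ => by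
      rw [β.target]
      have := (abs_le.1 (h.snd s)).2
      exact this.trans (le_max_right _ _))
  exact hβ t (hst ▸ mem_range_self s)

theorem joined_curve {γ : ℝ → ℝ × ℝ} (hγ : Continuous γ) {F : Set (ℝ × ℝ)} (hF : ∀ x, γ x ∈ F) (x y : ℝ) :
    JoinedIn F (γ x) (γ y) := by
  have : IsPathConnected (range γ) := isPathConnected_range hγ
  refine (this.joinedIn _ (mem_range_self x) _ (mem_range_self y)).mono ?_
  rintro _ ⟨z, rfl⟩
  exact hF z

/-- the part of the curve on a vertical line is compact -/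
theorem compact_line {κ C : ℝ} (hκ : 0 < κ) {γ : ℝ → ℝ × ℝ} (h : Ln κ C γ) :
    IsCompact {y : ℝ | ((0 : ℝ), y) ∈ range γ} := by
  have e : {y : ℝ | ((0 : ℝ), y) ∈ range γ} =
      Prod.snd '' (γ '' Icc (-C / κ) (C / κ) ∩ {p | p.1 = 0}) := by
    ext y
    constructor
    · rintro ⟨s, hs⟩
      refine ⟨(0, y), ⟨⟨s, ?_, hs⟩, rfl⟩, rfl⟩
      have := abs_le.1 (h.fst s)
      rw [hs] at this
      constructor
      · rw [div_le_iff₀ hκ]; simp only at this; linarith [this.2]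
      · rw [le_div_iff₀ hκ]; simp only at this; linarith [this.1]
    · rintro ⟨p, ⟨⟨s, _, hs⟩, hp⟩, rfl⟩
      refine ⟨s, hs.trans ?_⟩
      exact Prod.ext hp rfl
  rw [e]
  refine IsCompact.image ?_ continuous_snd
  refine (isCompact_Icc.image h.cont).inter_right ?_
  exact isClosed_eq continuous_fst continuous_const

theorem line_nonempty {κ C : ℝ} (hκ : 0 < κ) {γ : ℝ → ℝ × ℝ} (h : Ln κ C γ) :
    {y : ℝ | ((0 : ℝ), y) ∈ range γ}.Nonempty := by
  have h1 : (γ (-C / κ)).1 ≤ 0 := by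
    have := (abs_le.1 (h.fst (-C / κ))).2
    rw [mul_div_cancel₀ _ hκ.ne'] at this
    linarith
  have h2 : 0 ≤ (γ (C / κ)).1 := by
    have := (abs_le.1 (h.fst (C / κ))).1
    rw [mul_div_cancel₀ _ hκ.ne'] at this
    linarith
  have : (0 : ℝ) ∈ range fun x => (γ x).1 :=
    mem_range_of_exists_le_of_exists_ge (continuous_fst.comp h.cont) ⟨_, h1⟩ ⟨_, h2⟩
  obtain ⟨x, hx⟩ := this
  exact ⟨(γ x).2, x, Prod.ext hx rfl⟩

theorem joinedIn_segment {F : Set (ℝ × ℝ)} {p q : ℝ × ℝ} (h : segment ℝ p q ⊆ F) : JoinedIn F p q :=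
  ((convex_segment p q).isPathConnected ⟨p, left_mem_segment ℝ p q⟩ |>.joinedIn p
    (left_mem_segment ℝ p q) q (right_mem_segment ℝ p q)).mono h

/-- a point of `F`, all points of the vertical line above which are outside `L'`, is in `Up L'` -/
theorem up_of_vertical {κ C : ℝ} {γ : ℝ → ℝ × ℝ} (h : Ln κ C γ) {y : ℝ}
    (hy : ∀ y', y ≤ y' → ((0 : ℝ), y') ∉ range γ) : ((0 : ℝ), y) ∈ Up (range γ) := by
  refine ⟨C + 1, fun p hp => ?_⟩
  set Y : ℝ := max (C + 1) y with hY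
  have h1 : JoinedIn (range γ)ᶜ p (0, Y) := by
    apply joinedIn_segment
    have hconv : Convex ℝ {q : ℝ × ℝ | C + 1 ≤ q.2} :=
      (convex_Ici (C + 1)).linear_preimage (LinearMap.snd ℝ ℝ ℝ)
    have : segment ℝ p ((0 : ℝ), Y) ⊆ {q : ℝ × ℝ | C + 1 ≤ q.2} :=
      hconv.segment_subset hp (show C + 1 ≤ Y from le_max_left _ _)
    refine this.trans ?_
    rintro q hq ⟨s, rfl⟩
    have := (abs_le.1 (h.snd s)).2
    simp only [mem_ofPred_eq] at hq
    linarith
  have h2 : JoinedIn (range γ)ᶜ ((0 : ℝ), Y) (0, y) := by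
    apply joinedIn_segment
    have hconv : Convex ℝ {q : ℝ × ℝ | q.1 = 0 ∧ y ≤ q.2} := by
      refine Convex.inter (s := {q : ℝ × ℝ | q.1 = 0}) (t := {q : ℝ × ℝ | y ≤ q.2}) ?_ ?_
      · exact (convex_singleton (0 : ℝ)).linear_preimage (LinearMap.fst ℝ ℝ ℝ)
      · exact (convex_Ici y).linear_preimage (LinearMap.snd ℝ ℝ ℝ)
    have : segment ℝ ((0 : ℝ), Y) ((0 : ℝ), y) ⊆ {q : ℝ × ℝ | q.1 = 0 ∧ y ≤ q.2} :=
      hconv.segment_subset ⟨rfl, le_max_right _ _⟩ ⟨rfl, le_rfl⟩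
    refine this.trans ?_
    rintro ⟨q1, q2⟩ ⟨hq1, hq2⟩ hmem
    simp only at hq1 hq2
    subst hq1
    exact hy q2 hq2 hmem
  exact h1.trans h2

theorem dn_of_vertical {κ C : ℝ} {γ : ℝ → ℝ × ℝ} (h : Ln κ C γ) {y : ℝ}
    (hy : ∀ y', y' ≤ y → ((0 : ℝ), y') ∉ range γ) : ((0 : ℝ), y) ∈ Dn (range γ) := by
  refine ⟨-C - 1, fun p hp => ?_⟩
  set Y : ℝ := min (-C - 1) y with hY
  have h1 : JoinedIn (range γ)ᶜ p (0, Y) := by
    apply joinedIn_segment
    have hconv : Convex ℝ {q : ℝ × ℝ | q.2 ≤ -C - 1} :=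
      (convex_Iic (-C - 1)).linear_preimage (LinearMap.snd ℝ ℝ ℝ)
    have : segment ℝ p ((0 : ℝ), Y) ⊆ {q : ℝ × ℝ | q.2 ≤ -C - 1} :=
      hconv.segment_subset hp (show Y ≤ -C - 1 from min_le_left _ _)
    refine this.trans ?_
    rintro q hq ⟨s, rfl⟩
    have := (abs_le.1 (h.snd s)).1
    simp only [mem_ofPred_eq] at hq
    linarith
  have h2 : JoinedIn (range γ)ᶜ ((0 : ℝ), Y) (0, y) := by
    apply joinedIn_segment
    have hconv : Convex ℝ {q : ℝ × ℝ | q.1 = 0 ∧ q.2 ≤ y} := by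
      refine Convex.inter (s := {q : ℝ × ℝ | q.1 = 0}) (t := {q : ℝ × ℝ | q.2 ≤ y}) ?_ ?_
      · exact (convex_singleton (0 : ℝ)).linear_preimage (LinearMap.fst ℝ ℝ ℝ)
      · exact (convex_Iic y).linear_preimage (LinearMap.snd ℝ ℝ ℝ)
    have : segment ℝ ((0 : ℝ), Y) ((0 : ℝ), y) ⊆ {q : ℝ × ℝ | q.1 = 0 ∧ q.2 ≤ y} :=
      hconv.segment_subset ⟨rfl, min_le_right _ _⟩ ⟨rfl, le_rfl⟩
    refine this.trans ?_
    rintro ⟨q1, q2⟩ ⟨hq1, hq2⟩ hmem
    simp only at hq1 hq2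
    subst hq1
    exact hy q2 hq2 hmem
  exact h1.trans h2

theorem sub_up_of_mem {γ : ℝ → ℝ × ℝ} (hγ : Continuous γ) {L' : Set (ℝ × ℝ)}
    (hd : ∀ x, γ x ∉ L') {z : ℝ × ℝ} (hz : z ∈ range γ) (hu : z ∈ Up L') : range γ ⊆ Up L' := by
  obtain ⟨R, hR⟩ := hu
  obtain ⟨x, rfl⟩ := hz
  rintro _ ⟨y, rfl⟩
  exact ⟨R, fun p hp => (hR p hp).trans (joined_curve hγ hd x y)⟩

theorem sub_dn_of_mem {γ : ℝ → ℝ × ℝ} (hγ : Continuous γ) {L' : Set (ℝ × ℝ)}
    (hd : ∀ x, γ x ∉ L') {z : ℝ × ℝ} (hz : z ∈ range γ) (hu : z ∈ Dn L') : range γ ⊆ Dn L' := by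
  obtain ⟨R, hR⟩ := hu
  obtain ⟨x, rfl⟩ := hz
  rintro _ ⟨y, rfl⟩
  exact ⟨R, fun p hp => (hR p hp).trans (joined_curve hγ hd x y)⟩

/-- two disjoint curves: one is above the other -/
theorem dich {κ C κ' C' : ℝ} (hκ : 0 < κ) (hκ' : 0 < κ') {γ γ' : ℝ → ℝ × ℝ} (h : Ln κ C γ)
    (h' : Ln κ' C' γ') (hd : Disjoint (range γ) (range γ')) :
    (range γ ⊆ Up (range γ') ∧ range γ' ⊆ Dn (range γ)) ∨
      (range γ' ⊆ Up (range γ) ∧ range γ ⊆ Dn (range γ')) := by
  set T : Set ℝ := {y : ℝ | ((0 : ℝ), y) ∈ range γ} ∪ {y : ℝ | ((0 : ℝ), y) ∈ range γ'} with hT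
  have hTc : IsCompact T := (compact_line hκ h).union (compact_line hκ' h')
  have hTn : T.Nonempty := (line_nonempty hκ h).mono subset_union_left
  have hd1 : ∀ x, γ x ∉ range γ' := fun x hx => Set.disjoint_left.1 hd (mem_range_self x) hx
  have hd2 : ∀ x, γ' x ∉ range γ := fun x hx => Set.disjoint_left.1 hd hx (mem_range_self x)
  obtain ⟨M, hM, hMu⟩ := hTc.exists_isGreatest hTn
  obtain ⟨m, hm, hml⟩ := hTc.exists_isLeast hTn
  -- first hit from above
  have up1 : ((0 : ℝ), M) ∈ range γ → range γ ⊆ Up (range γ') := fun hmem => by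
    refine sub_up_of_mem h.cont hd1 hmem (up_of_vertical h' fun y' hy' hy'' => ?_)
    rcases eq_or_lt_of_le hy' with e | e
    · subst e; exact Set.disjoint_left.1 hd hmem hy''
    · exact absurd (hMu (Or.inr hy'')) (not_le.2 e)
  have up2 : ((0 : ℝ), M) ∈ range γ' → range γ' ⊆ Up (range γ) := fun hmem => by
    refine sub_up_of_mem h'.cont hd2 hmem (up_of_vertical h fun y' hy' hy'' => ?_)
    rcases eq_or_lt_of_le hy' with e | e
    · subst e; exact Set.disjoint_left.1 hd hy'' hmem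
    · exact absurd (hMu (Or.inl hy'')) (not_le.2 e)
  have dn1 : ((0 : ℝ), m) ∈ range γ → range γ ⊆ Dn (range γ') := fun hmem => by
    refine sub_dn_of_mem h.cont hd1 hmem (dn_of_vertical h' fun y' hy' hy'' => ?_)
    rcases eq_or_lt_of_le hy' with e | e
    · subst e; exact Set.disjoint_left.1 hd hmem hy''
    · exact absurd (hml (Or.inr hy'')) (not_le.2 e)
  have dn2 : ((0 : ℝ), m) ∈ range γ' → range γ' ⊆ Dn (range γ) := fun hmem => by
    refine sub_dn_of_mem h'.cont hd2 hmem (dn_of_vertical h fun y' hy' hy'' => ?_)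
    rcases eq_or_lt_of_le hy' with e | e
    · subst e; exact Set.disjoint_left.1 hd hy'' hmem
    · exact absurd (hml (Or.inl hy'')) (not_le.2 e)
  rcases hM with hM | hM
  · left
    refine ⟨up1 hM, ?_⟩
    rcases hm with hm | hm
    · exact absurd (dn1 hm (mem_range_self 0)) (Set.disjoint_left.1 (sep hκ' h') (up1 hM (mem_range_self 0)))
    · exact dn2 hm
  · right
    refine ⟨up2 hM, ?_⟩
    rcases hm with hm | hm
    · exact dn1 hm
    · exact absurd (dn2 hm (mem_range_self 0)) (Set.disjoint_left.1 (sep hκ h) (up2 hM (mem_range_self 0)))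

theorem ssub {κ C : ℝ} (hκ : 0 < κ) {γ γ' : ℝ → ℝ × ℝ} (h : Ln κ C γ)
    (h1 : range γ ⊆ Up (range γ')) (h2 : range γ' ⊆ Dn (range γ)) :
    Up (range γ) ⊂ Up (range γ') := by
  refine ⟨fun z hz => ?_, fun hsub => not_mem_of_up (hsub (h1 (mem_range_self 0))) (mem_range_self 0)⟩
  obtain ⟨R, hR⟩ := hz
  refine ⟨R, fun p hp => ?_⟩
  obtain ⟨β, hβ⟩ := hR p hp
  refine ⟨β, fun t ht => ?_⟩
  -- the point β t is in Up (range γ)
  have hup : β t ∈ Up (range γ) := by
    refine ⟨R, fun p' hp' => (hR p' hp').trans ?_⟩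
    refine JoinedIn.symm ?_
    have : JoinedIn (range β) (β t) z := by
      have : PathConnectedSpace unitInterval :=
        isPathConnected_iff_pathConnectedSpace.1
          ((convex_Icc (0 : ℝ) 1).isPathConnected ⟨0, by simp⟩)
      have hpc : IsPathConnected (range β) := isPathConnected_range β.continuous
      refine hpc.joinedIn _ (mem_range_self t) _ ?_
      exact ⟨1, β.target⟩
    refine this.mono ?_
    rintro _ ⟨s, rfl⟩
    exact hβ s
  exact Set.disjoint_left.1 (sep hκ h) hup (h2 ht)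

theorem image_ss {α β : Type} {f : α → β} (hf : Function.Injective f) {s t : Set α} (h : s ⊂ t) :
    f '' s ⊂ f '' t :=
  ⟨Set.image_mono h.1, fun h' => h.2 fun x hx => by
    obtain ⟨y, hy, e⟩ := h' ⟨x, hx, rfl⟩
    exact hf e ▸ hy⟩

/-! ### homeomorphisms -/

section perm

variable {G : Equiv.Perm (ℝ × ℝ)}

theorem image_up_sub (hG : Continuous G) {C0 : ℝ} (h : ∀ z, |(G z).2 - z.2| ≤ C0)
    (L : Set (ℝ × ℝ)) : G '' Up L ⊆ Up (G '' L) := by
  rintro _ ⟨z, ⟨R, hR⟩, rfl⟩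
  refine ⟨R + C0, fun p hp => ?_⟩
  have h1 : R ≤ (G.symm p).2 := by
    have := (abs_le.1 (h (G.symm p))).2
    rw [Equiv.apply_symm_apply] at this
    linarith
  obtain ⟨β, hβ⟩ := hR _ h1
  refine ⟨(β.map hG).cast (G.apply_symm_apply p).symm rfl, fun t => ?_⟩
  rintro ⟨q, hq, he⟩
  have : q = β t := G.injective he
  exact hβ t (this ▸ hq)

theorem image_up (hG : Continuous G) (hG' : Continuous G.symm) {C0 : ℝ}
    (h : ∀ z, |(G z).2 - z.2| ≤ C0) (L : Set (ℝ × ℝ)) : Up (G '' L) = G '' Up L := by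
  refine Subset.antisymm ?_ (image_up_sub hG h L)
  intro z hz
  have h' : ∀ z, |(G.symm z).2 - z.2| ≤ C0 := fun z => by
    have := h (G.symm z)
    rw [Equiv.apply_symm_apply, abs_sub_comm] at this
    exact this
  have := image_up_sub (G := G.symm) hG' h' (G '' L) ⟨z, hz, rfl⟩
  rw [Equiv.symm_image_image] at this
  exact ⟨_, this, G.apply_symm_apply z⟩

theorem pow_image_succ (n : ℕ) (L : Set (ℝ × ℝ)) : (G ^ (n + 1)) '' L = G '' ((G ^ n) '' L) := by
  rw [pow_succ', Set.image_image]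
  rfl

/-- a curve which is invariant under `G ^ i` meets its image under `G` -/
theorem not_disjoint (hG : Continuous G) (hG' : Continuous G.symm) {C0 : ℝ}
    (h : ∀ z, |(G z).2 - z.2| ≤ C0) {κ C κ' C' : ℝ} (hκ : 0 < κ) (hκ' : 0 < κ') {γ γ' : ℝ → ℝ × ℝ}
    (hγ : Ln κ C γ) (hγ' : Ln κ' C' γ') (e : range γ' = G '' range γ) {i : ℕ} (hi : 1 ≤ i)
    (hinv : (G ^ i) '' range γ = range γ) : ¬ Disjoint (range γ) (range γ') := by
  intro hd
  rcases dich hκ hκ' hγ hγ' hd with ⟨h1, h2⟩ | ⟨h1, h2⟩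
  · have hs := ssub hκ hγ h1 h2
    rw [e] at hs
    have key : ∀ n : ℕ, Up ((G ^ n) '' range γ) ⊂ Up ((G ^ (n + 1)) '' range γ) := by
      intro n
      induction n with
      | zero => simpa using hs
      | succ n ih =>
        rw [pow_image_succ (n + 1), pow_image_succ n, image_up hG hG' h, image_up hG hG' h]
        rw [pow_image_succ n] at ih
        exact image_ss G.injective (by simpa [pow_image_succ] using ih)
    have key2 : ∀ n : ℕ, Up (range γ) ⊂ Up ((G ^ (n + 1)) '' range γ) := by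
      intro n
      induction n with
      | zero => simpa using key 0
      | succ n ih => exact ih.trans (key (n + 1))
    obtain ⟨n, rfl⟩ : ∃ n, i = n + 1 := ⟨i - 1, by omega⟩
    have := key2 n
    rw [hinv] at this
    exact this.ne rfl
  · have hs := ssub hκ' hγ' h1 h2
    rw [e] at hs
    have key : ∀ n : ℕ, Up ((G ^ (n + 1)) '' range γ) ⊂ Up ((G ^ n) '' range γ) := by
      intro n
      induction n with
      | zero => simpa using hs
      | succ n ih =>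
        rw [pow_image_succ (n + 1), pow_image_succ n, image_up hG hG' h, image_up hG hG' h]
        rw [pow_image_succ n, image_up hG hG' h] at ih
        exact image_ss G.injective ih
    have key2 : ∀ n : ℕ, Up ((G ^ (n + 1)) '' range γ) ⊂ Up (range γ) := by
      intro n
      induction n with
      | zero => simpa using key 0
      | succ n ih => exact (key (n + 1)).trans ih
    obtain ⟨n, rfl⟩ : ∃ n, i = n + 1 := ⟨i - 1, by omega⟩
    have := key2 n
    rw [hinv] at this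
    exact this.ne rfl

/-! ### the chord argument -/

theorem inv_self' {α : Type} (f : Equiv.Perm α) (x : α) : f⁻¹ (f x) = x := f.symm_apply_apply x

theorem cont_zpow (hG : Continuous G) (hG' : Continuous G.symm) (j : ℤ) : Continuous (G ^ j) := by
  have hn : ∀ n : ℕ, Continuous (G ^ n) := fun n => by
    induction n with
    | zero => exact continuous_id
    | succ n ih =>
      rw [pow_succ']
      exact hG.comp ih
  have hn' : ∀ n : ℕ, Continuous (G.symm ^ n) := fun n => by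
    induction n with
    | zero => exact continuous_id
    | succ n ih =>
      rw [pow_succ']
      exact hG'.comp ih
  rcases Int.eq_nat_or_neg j with ⟨n, rfl | rfl⟩
  · rw [zpow_natCast]; exact hn n
  · rw [zpow_neg, zpow_natCast, ← inv_pow]; exact hn' n

theorem no_per {C0 : ℝ} (h : ∀ (j : ℤ) z, |((G ^ j) z).1 - z.1 - j| ≤ C0) {j : ℤ} {z : ℝ × ℝ}
    (hz : (G ^ j) z = z) : j = 0 := by
  by_contra hj
  have h1 : ∀ k : ℤ, (G ^ (j * k)) z = z := fun k => by
    rw [zpow_mul]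
    exact Function.IsFixedPt.perm_zpow hz k
  have hC0 : 0 ≤ C0 := (abs_nonneg _).trans (h 0 z)
  have h2 := h (j * (⌈C0⌉ + 1)) z
  rw [h1] at h2
  have h3 : |(z.1 : ℝ) - z.1 - ((j * (⌈C0⌉ + 1) : ℤ) : ℝ)| = |(j : ℝ)| * |((⌈C0⌉ + 1 : ℤ) : ℝ)| := by
    rw [sub_self, zero_sub, abs_neg, Int.cast_mul, abs_mul]
  rw [h3] at h2
  have h4 : (1 : ℝ) ≤ |(j : ℝ)| := by
    have := Int.one_le_abs hj
    exact_mod_cast this
  have h5 : C0 + 1 ≤ |((⌈C0⌉ + 1 : ℤ) : ℝ)| := by
    refine le_trans ?_ (le_abs_self _)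
    push_cast
    linarith [Int.le_ceil C0]
  nlinarith [abs_nonneg (j : ℝ)]

/-- the curve made of the iterates of a chord -/
noncomputable def cv (G : Equiv.Perm (ℝ × ℝ)) (c : ℝ → ℝ × ℝ) (i : ℕ) (s t : ℝ) (x : ℝ) : ℝ × ℝ :=
  (G ^ ((i : ℤ) * ⌊x⌋)) (c (s + Int.fract x * (t - s)))

theorem cv_eq {c : ℝ → ℝ × ℝ} {i : ℕ} {s t : ℝ} (hst : (G ^ i) (c s) = c t) (n : ℤ) {x : ℝ}
    (hx : x ∈ Icc (n : ℝ) (n + 1)) :
    cv G c i s t x = (G ^ ((i : ℤ) * n)) (c (s + (x - n) * (t - s))) := by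
  rcases eq_or_lt_of_le hx.2 with e | e
  · have h1 : ⌊x⌋ = n + 1 := by
      rw [e]
      have : ((n : ℝ) + 1) = ((n + 1 : ℤ) : ℝ) := by push_cast; ring
      rw [this, Int.floor_intCast]
    have h2 : Int.fract x = 0 := by
      rw [Int.fract, h1, e]; push_cast; ring
    rw [cv, h1, h2, e]
    have e1 : s + 0 * (t - s) = s := by ring
    have e2 : s + ((n : ℝ) + 1 - n) * (t - s) = t := by ring
    rw [e1, e2, ← hst, mul_add, mul_one, zpow_add, Equiv.Perm.mul_apply, zpow_natCast]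
  · have h1 : ⌊x⌋ = n := Int.floor_eq_iff.2 ⟨hx.1, e⟩
    rw [cv, Int.fract, h1]

theorem cv_cont (hG : Continuous G) (hG' : Continuous G.symm) {c : ℝ → ℝ × ℝ} (hc : Continuous c)
    {i : ℕ} {s t : ℝ} (hst : (G ^ i) (c s) = c t) : Continuous (cv G c i s t) := by
  have hlf : LocallyFinite fun n : ℤ => Icc (n : ℝ) (n + 1) := by
    intro x
    refine ⟨Ioo (x - 1) (x + 1), Ioo_mem_nhds (by linarith) (by linarith), ?_⟩
    refine (Set.finite_Icc (⌊x⌋ - 2) (⌊x⌋ + 2)).subset ?_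
    rintro n ⟨y, ⟨h1, h2⟩, h3, h4⟩
    have h5 := Int.floor_le x
    have h6 := Int.lt_floor_add_one x
    constructor
    · have : ((⌊x⌋ - 2 : ℤ) : ℝ) ≤ n := by push_cast; linarith
      exact_mod_cast this
    · have : (n : ℝ) ≤ ((⌊x⌋ + 2 : ℤ) : ℝ) := by push_cast; linarith
      exact_mod_cast this
  refine hlf.continuous ?_ (fun n => isClosed_Icc) ?_
  · rw [Set.iUnion_eq_univ_iff]
    intro x
    exact ⟨⌊x⌋, Int.floor_le x, (Int.lt_floor_add_one x).le⟩
  · intro n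
    have : EqOn (cv G c i s t) (fun x => (G ^ ((i : ℤ) * n)) (c (s + (x - n) * (t - s))))
        (Icc (n : ℝ) (n + 1)) := fun x hx => cv_eq hst n hx
    refine ContinuousOn.congr ?_ this
    apply Continuous.continuousOn
    refine (cont_zpow hG hG' _).comp (hc.comp ?_)
    fun_prop

theorem cv_add_one {c : ℝ → ℝ × ℝ} {i : ℕ} {s t : ℝ} (x : ℝ) :
    cv G c i s t (x + 1) = (G ^ i) (cv G c i s t x) := by
  rw [cv, cv, Int.floor_add_one, Int.fract_add_one, mul_add, mul_one, add_comm, zpow_add,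
    Equiv.Perm.mul_apply, zpow_natCast]

theorem cv_inv {c : ℝ → ℝ × ℝ} {i : ℕ} {s t : ℝ} :
    (G ^ i) '' range (cv G c i s t) = range (cv G c i s t) := by
  ext z
  constructor
  · rintro ⟨_, ⟨x, rfl⟩, rfl⟩
    exact ⟨x + 1, cv_add_one x⟩
  · rintro ⟨x, rfl⟩
    refine ⟨_, ⟨x - 1, rfl⟩, ?_⟩
    rw [← cv_add_one, sub_add_cancel]

theorem seg_mem {s t : ℝ} (hs : s ∈ Icc (0 : ℝ) 1) (ht : t ∈ Icc (0 : ℝ) 1) {r : ℝ}
    (hr : r ∈ Icc (0 : ℝ) 1) : s + r * (t - s) ∈ Icc (0 : ℝ) 1 := by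
  obtain ⟨a, b⟩ := hs
  obtain ⟨a', b'⟩ := ht
  obtain ⟨c, d⟩ := hr
  constructor <;> nlinarith

theorem fract_mem (x : ℝ) : Int.fract x ∈ Icc (0 : ℝ) 1 :=
  ⟨Int.fract_nonneg x, (Int.fract_lt_one x).le⟩

theorem cv_ln (hG : Continuous G) (hG' : Continuous G.symm) {C0 : ℝ}
    (h1 : ∀ (j : ℤ) z, |((G ^ j) z).1 - z.1 - j| ≤ C0) (h2 : ∀ (j : ℤ) z, |((G ^ j) z).2 - z.2| ≤ C0)
    {c : ℝ → ℝ × ℝ} (hc : Continuous c) {B : ℝ} (hB : ∀ x ∈ Icc (0 : ℝ) 1, ‖c x‖ ≤ B)
    {i : ℕ} {s t : ℝ} (hs : s ∈ Icc (0 : ℝ) 1) (ht : t ∈ Icc (0 : ℝ) 1) (hst : (G ^ i) (c s) = c t) :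
    Ln i (C0 + B + i) (cv G c i s t) := by
  have hb : ∀ x, ‖c (s + Int.fract x * (t - s))‖ ≤ B := fun x =>
    hB _ (seg_mem hs ht (fract_mem x))
  refine ⟨cv_cont hG hG' hc hst, fun x => ?_, fun x => ?_⟩
  · have e1 := h1 ((i : ℤ) * ⌊x⌋) (c (s + Int.fract x * (t - s)))
    have e2 : |(c (s + Int.fract x * (t - s))).1| ≤ B := (norm_fst_le _).trans (hb x)
    have e3 := Int.fract_nonneg x
    have e4 := (Int.fract_lt_one x).le
    have e5 : (⌊x⌋ : ℝ) + Int.fract x = x := Int.floor_add_fract x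
    rw [cv]
    rw [abs_le] at e1 e2 ⊢
    push_cast at e1
    have hi : (0 : ℝ) ≤ i := Nat.cast_nonneg i
    have e6 : (i : ℝ) * x = i * ⌊x⌋ + i * Int.fract x := by rw [← mul_add, e5]
    have e7 : (i : ℝ) * Int.fract x ≤ i := by nlinarith
    have e8 : 0 ≤ (i : ℝ) * Int.fract x := by positivity
    constructor <;> linarith [e1.1, e1.2, e2.1, e2.2]
  · have e1 := h2 ((i : ℤ) * ⌊x⌋) (c (s + Int.fract x * (t - s)))
    have e2 : |(c (s + Int.fract x * (t - s))).2| ≤ B := (norm_snd_le _).trans (hb x)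
    have hi : (0 : ℝ) ≤ i := Nat.cast_nonneg i
    rw [cv]
    rw [abs_le] at e1 e2 ⊢
    constructor <;> linarith [e1.1, e1.2, e2.1, e2.2]

/-- the minimal chord argument -/
theorem chord (hG : Continuous G) (hG' : Continuous G.symm) {C0 : ℝ}
    (h1 : ∀ (j : ℤ) z, |((G ^ j) z).1 - z.1 - j| ≤ C0) (h2 : ∀ (j : ℤ) z, |((G ^ j) z).2 - z.2| ≤ C0)
    {c : ℝ → ℝ × ℝ} (hc : Continuous c)
    (hfree : ∀ s ∈ Icc (0 : ℝ) 1, ∀ t ∈ Icc (0 : ℝ) 1, G (c s) ≠ c t) :
    ∀ k : ℕ, 1 ≤ k → ∀ s ∈ Icc (0 : ℝ) 1, ∀ t ∈ Icc (0 : ℝ) 1, (G ^ k) (c s) ≠ c t := by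
  intro k hk s₀ hs₀ t₀ ht₀ hkst
  obtain ⟨B, hB⟩ := isCompact_Icc.exists_bound_of_continuousOn (hc.continuousOn (s := Icc (0 : ℝ) 1))
  -- the chords
  have hcp : ∀ m : ℕ, Continuous (G ^ m) := fun m => by
    have := cont_zpow hG hG' (m : ℤ)
    rwa [zpow_natCast] at this
  have hmb : ∀ (m : ℕ) (s t : ℝ), s ∈ Icc (0 : ℝ) 1 → t ∈ Icc (0 : ℝ) 1 → (G ^ m) (c s) = c t →
      (m : ℝ) ≤ C0 + 2 * B := by
    intro m s t hs ht e
    have a1 := h1 (m : ℤ) (c s)
    rw [zpow_natCast, e] at a1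
    have a2 : |(c s).1| ≤ B := (norm_fst_le _).trans (hB s hs)
    have a3 : |(c t).1| ≤ B := (norm_fst_le _).trans (hB t ht)
    rw [abs_le] at a1 a2 a3
    push_cast at a1
    linarith [a1.1, a2.1, a3.2]
  set M : ℕ := ⌊C0 + 2 * B⌋₊ with hM
  let K : ℕ → Set (ℝ × ℝ) := fun m => {p | p.1 ∈ Icc (0 : ℝ) 1 ∧ p.2 ∈ Icc (0 : ℝ) 1 ∧
    (G ^ m) (c p.1) = c p.2}
  have hK : ∀ m, IsCompact (K m) := fun m => by
    have e : K m = (Icc (0 : ℝ) 1 ×ˢ Icc (0 : ℝ) 1) ∩ {p | (G ^ m) (c p.1) = c p.2} := by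
      ext p
      exact ⟨fun hp => ⟨⟨hp.1, hp.2.1⟩, hp.2.2⟩, fun hp => ⟨hp.1.1, hp.1.2, hp.2⟩⟩
    rw [e]
    refine (isCompact_Icc.prod isCompact_Icc).inter_right ?_
    exact isClosed_eq ((hcp m).comp (hc.comp continuous_fst)) (hc.comp continuous_snd)
  let S : Set (ℝ × ℝ) := ⋃ m ∈ Finset.Icc 1 M, K m
  have hS : IsCompact S := Finset.isCompact_biUnion _ fun m _ => hK m
  have hSm : ∀ (m : ℕ) (s t : ℝ), 1 ≤ m → s ∈ Icc (0 : ℝ) 1 → t ∈ Icc (0 : ℝ) 1 →
      (G ^ m) (c s) = c t → (s, t) ∈ S := by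
    intro m s t hm hs ht e
    refine Set.mem_biUnion (x := m) ?_ ⟨hs, ht, e⟩
    rw [Finset.mem_coe, Finset.mem_Icc]
    exact ⟨hm, Nat.le_floor (hmb m s t hs ht e)⟩
  obtain ⟨⟨s, t⟩, hp, hmin⟩ := hS.exists_isMinOn ⟨(s₀, t₀), hSm k s₀ t₀ hk hs₀ ht₀ hkst⟩
    (f := fun p : ℝ × ℝ => |p.2 - p.1|) (by fun_prop)
  obtain ⟨i, hi, hs, ht, hst⟩ := Set.mem_iUnion₂.1 hp
  simp only at hs ht hst
  have hi1 : 1 ≤ i := (Finset.mem_Icc.1 hi).1
  have hi2 : i ≠ 1 := fun e => by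
    subst e
    rw [pow_one] at hst
    exact hfree s hs t ht hst
  -- chords inside the interval
  have key : ∀ (m : ℕ) (u v : ℝ), 1 ≤ m → u ∈ Icc (0 : ℝ) 1 → v ∈ Icc (0 : ℝ) 1 →
      (G ^ m) (c (s + u * (t - s))) = c (s + v * (t - s)) → m = i := by
    intro m u v hm hu hv e
    have b1 := hmin (hSm m _ _ hm (seg_mem hs ht hu) (seg_mem hs ht hv) e)
    simp only at b1
    have b2 : |(s + v * (t - s)) - (s + u * (t - s))| = |v - u| * |t - s| := by
      rw [← abs_mul]; congr 1; ring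
    change |t - s| ≤ |(s + v * (t - s)) - (s + u * (t - s))| at b1
    rw [b2] at b1
    have b3 : 0 < |t - s| := by
      rw [abs_pos, sub_ne_zero]
      intro e'
      rw [e'] at hst
      have : (G ^ (i : ℤ)) (c s) = c s := by rw [zpow_natCast]; exact hst
      have := no_per h1 this
      omega
    have b4 : 1 ≤ |v - u| := by
      by_contra hlt
      push Not at hlt
      nlinarith
    obtain ⟨u0, u1⟩ := hu
    obtain ⟨v0, v1⟩ := hv
    rcases le_abs.1 b4 with b5 | b5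
    · have hv' : v = 1 := by linarith
      have hu' : u = 0 := by linarith
      subst hv' hu'
      have e3 : s + 0 * (t - s) = s := by ring
      have e4 : s + 1 * (t - s) = t := by ring
      rw [e3, e4, ← hst] at e
      have : (G ^ ((m : ℤ) - i)) (c s) = c s := by
        rw [sub_eq_neg_add, zpow_add, Equiv.Perm.mul_apply, zpow_natCast, e, zpow_neg, zpow_natCast,
          inv_self']
      have := no_per h1 this
      omega
    · have hv' : v = 0 := by linarith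
      have hu' : u = 1 := by linarith
      subst hv' hu'
      have e3 : s + 0 * (t - s) = s := by ring
      have e4 : s + 1 * (t - s) = t := by ring
      rw [e3, e4, ← hst] at e
      have : (G ^ ((m : ℤ) + i)) (c s) = c s := by
        rw [zpow_add, Equiv.Perm.mul_apply, zpow_natCast, zpow_natCast, e]
      have := no_per h1 this
      omega
  have hln := cv_ln hG hG' h1 h2 hc hB hs ht hst
  have hln' : Ln i (C0 + B + i + (C0 + 1)) (fun x => G (cv G c i s t x)) := by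
    refine ⟨hG.comp hln.cont, fun x => ?_, fun x => ?_⟩
    · have e1 := hln.fst x
      have e2 := h1 1 (cv G c i s t x)
      rw [zpow_one] at e2
      push_cast at e2
      rw [abs_le] at e1 e2 ⊢
      constructor <;> linarith [e1.1, e1.2, e2.1, e2.2]
    · have e1 := hln.snd x
      have e2 := h2 1 (cv G c i s t x)
      rw [zpow_one] at e2
      rw [abs_le] at e1 e2 ⊢
      constructor <;> linarith [e1.1, e1.2, e2.1, e2.2]
  have hi0 : (0 : ℝ) < i := by exact_mod_cast hi1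
  refine not_disjoint hG hG' (C0 := C0) (fun z => by simpa using h2 1 z) hi0 hi0 hln hln'
    (Set.range_comp G (cv G c i s t)) hi1 cv_inv ?_
  rw [Set.disjoint_left]
  rintro _ ⟨x, rfl⟩ ⟨y, hy⟩
  simp only [cv] at hy
  have e1 : (G ^ ((1 : ℤ) + i * (⌊y⌋ - ⌊x⌋))) (c (s + Int.fract y * (t - s))) =
      c (s + Int.fract x * (t - s)) := by
    have e2 : (1 : ℤ) + i * (⌊y⌋ - ⌊x⌋) = -(i * ⌊x⌋) + (1 + i * ⌊y⌋) := by ring
    rw [e2, zpow_add, Equiv.Perm.mul_apply, zpow_add, Equiv.Perm.mul_apply, zpow_one, hy, zpow_neg,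
      inv_self']
  set d : ℤ := ⌊y⌋ - ⌊x⌋ with hd
  have hnd : ∀ a : ℤ, (i : ℤ) * a ≠ 1 := fun a ha => by
    have : (i : ℤ) ∣ 1 := ⟨a, ha.symm⟩
    have := Int.le_of_dvd one_pos this
    omega
  rcases lt_trichotomy ((1 : ℤ) + i * d) 0 with hlt | heq | hgt
  · obtain ⟨m, hm⟩ := Int.eq_ofNat_of_zero_le (a := -((1 : ℤ) + i * d)) (by omega)
    have e3 : (G ^ m) (c (s + Int.fract x * (t - s))) = c (s + Int.fract y * (t - s)) := by
      rw [← zpow_natCast, ← hm, ← e1, zpow_neg, inv_self']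
    have := key m _ _ (by omega) (fract_mem x) (fract_mem y) e3
    subst this
    exact hnd (-1 - d) (by rw [mul_sub]; omega)
  · exact hnd (-d) (by rw [mul_neg]; omega)
  · obtain ⟨m, hm⟩ := Int.eq_ofNat_of_zero_le (a := (1 : ℤ) + i * d) (by omega)
    have e3 : (G ^ m) (c (s + Int.fract y * (t - s))) = c (s + Int.fract x * (t - s)) := by
      rw [← zpow_natCast, ← hm, e1]
    have := key m _ _ (by omega) (fract_mem y) (fract_mem x) e3
    subst this
    exact hnd (1 - d) (by rw [mul_sub]; omega)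

end perm

/-! ### general direction -/

/-- the rotation and scaling which maps `(a, b)` to `(1, 0)` -/
noncomputable def rot (a b : ℝ) (z : ℝ × ℝ) : ℝ × ℝ :=
  ((a * z.1 + b * z.2) / (a ^ 2 + b ^ 2), (a * z.2 - b * z.1) / (a ^ 2 + b ^ 2))

noncomputable def rotEquiv (a b : ℝ) (h : a ^ 2 + b ^ 2 ≠ 0) : ℝ × ℝ ≃ ℝ × ℝ where
  toFun := rot a b
  invFun z := (a * z.1 - b * z.2, b * z.1 + a * z.2)
  left_inv z := by
    rcases z with ⟨x, y⟩
    simp only [rot, Prod.mk.injEq]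
    constructor <;> (field_simp; ring)
  right_inv z := by
    rcases z with ⟨x, y⟩
    simp only [rot, Prod.mk.injEq]
    constructor <;> (field_simp; ring)

theorem chord' {G : Equiv.Perm (ℝ × ℝ)} (hG : Continuous G) (hG' : Continuous G.symm) {C : ℝ}
    {w : ℝ × ℝ} (hw : w ≠ 0) (h : ∀ (j : ℤ) z, ‖(G ^ j) z - z - (j : ℝ) • w‖ ≤ C)
    {c : ℝ → ℝ × ℝ} (hc : Continuous c)
    (hfree : ∀ s ∈ Icc (0 : ℝ) 1, ∀ t ∈ Icc (0 : ℝ) 1, G (c s) ≠ c t) :
    ∀ k : ℕ, 1 ≤ k → ∀ s ∈ Icc (0 : ℝ) 1, ∀ t ∈ Icc (0 : ℝ) 1, (G ^ k) (c s) ≠ c t := by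
  obtain ⟨a, b⟩ := w
  have hab : 0 < a ^ 2 + b ^ 2 := by
    rcases (not_and_or.1 fun hh => hw (Prod.ext hh.1 hh.2)) with h' | h'
    · have h0 : a ≠ 0 := h'
      have : 0 < a ^ 2 := by positivity
      nlinarith [sq_nonneg b]
    · have h0 : b ≠ 0 := h'
      have : 0 < b ^ 2 := by positivity
      nlinarith [sq_nonneg a]
  set T := rotEquiv a b hab.ne' with hT
  have hTc : Continuous T := by
    show Continuous (rot a b)
    unfold rot
    fun_prop
  have hTc' : Continuous T.symm := by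
    show Continuous fun z : ℝ × ℝ => (a * z.1 - b * z.2, b * z.1 + a * z.2)
    fun_prop
  set G₁ : Equiv.Perm (ℝ × ℝ) := T.permCongrHom G with hG₁
  have hz : ∀ (j : ℤ) z, (G₁ ^ j) z = T ((G ^ j) (T.symm z)) := fun j z => by
    rw [hG₁, ← map_zpow]
    rfl
  have hC : 0 ≤ C := (norm_nonneg _).trans (h 0 0)
  have hb : ∀ (j : ℤ) z, |((G ^ j) z).1 - z.1 - j * a| ≤ C ∧ |((G ^ j) z).2 - z.2 - j * b| ≤ C :=
    fun j z => ⟨(norm_fst_le _).trans (h j z), (norm_snd_le _).trans (h j z)⟩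
  set D : ℝ := (|a| + |b|) * C / (a ^ 2 + b ^ 2) with hD
  have hr : ∀ (j : ℤ) z, |(T ((G ^ j) z)).1 - (T z).1 - j| ≤ D ∧ |(T ((G ^ j) z)).2 - (T z).2| ≤ D := by
    intro j z
    obtain ⟨e1, e2⟩ := hb j z
    constructor
    · have e3 : (T ((G ^ j) z)).1 - (T z).1 - j = (a * (((G ^ j) z).1 - z.1 - j * a) +
          b * (((G ^ j) z).2 - z.2 - j * b)) / (a ^ 2 + b ^ 2) := by
        show (a * ((G ^ j) z).1 + b * ((G ^ j) z).2) / (a ^ 2 + b ^ 2) -
          (a * z.1 + b * z.2) / (a ^ 2 + b ^ 2) - j = _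
        field_simp
        ring
      rw [e3, abs_div, abs_of_pos hab, hD]
      apply div_le_div_of_nonneg_right _ hab.le
      refine (abs_add_le _ _).trans ?_
      rw [abs_mul, abs_mul, add_mul]
      exact add_le_add (mul_le_mul_of_nonneg_left e1 (abs_nonneg _))
        (mul_le_mul_of_nonneg_left e2 (abs_nonneg _))
    · have e3 : (T ((G ^ j) z)).2 - (T z).2 = (a * (((G ^ j) z).2 - z.2 - j * b) -
          b * (((G ^ j) z).1 - z.1 - j * a)) / (a ^ 2 + b ^ 2) := by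
        show (a * ((G ^ j) z).2 - b * ((G ^ j) z).1) / (a ^ 2 + b ^ 2) -
          (a * z.2 - b * z.1) / (a ^ 2 + b ^ 2) = _
        field_simp
        ring
      rw [e3, abs_div, abs_of_pos hab, hD]
      apply div_le_div_of_nonneg_right _ hab.le
      refine (abs_sub _ _).trans ?_
      rw [abs_mul, abs_mul, add_mul]
      exact add_le_add (mul_le_mul_of_nonneg_left e2 (abs_nonneg _))
        (mul_le_mul_of_nonneg_left e1 (abs_nonneg _))
  have hc1 : Continuous G₁ := by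
    have : (G₁ : ℝ × ℝ → ℝ × ℝ) = fun z => T (G (T.symm z)) := rfl
    rw [this]
    exact hTc.comp (hG.comp hTc')
  have hc2 : Continuous G₁.symm := by
    have : (G₁.symm : ℝ × ℝ → ℝ × ℝ) = fun z => T (G.symm (T.symm z)) := rfl
    rw [this]
    exact hTc.comp (hG'.comp hTc')
  intro k hk s hs t ht e
  refine chord (G := G₁) hc1 hc2 (C0 := D) (fun j z => ?_) (fun j z => ?_) (hTc.comp hc)
    (fun s hs t ht e => ?_) k hk s hs t ht ?_
  · rw [hz]
    simpa using (hr j (T.symm z)).1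
  · rw [hz]
    simpa using (hr j (T.symm z)).2
  · have := hz 1 (T (c s))
    rw [zpow_one, zpow_one, Equiv.symm_apply_apply] at this
    exact hfree s hs t ht (T.injective (this.symm.trans e))
  · have := hz k (T (c s))
    rw [zpow_natCast, zpow_natCast, Equiv.symm_apply_apply] at this
    exact this.trans (congrArg T e)

/-- **Free convex sets.** If `G (B)` is disjoint from the convex set `B`, then all iterates of `B` are
pairwise disjoint. -/
theorem free_convex {G : Equiv.Perm (ℝ × ℝ)} (hG : Continuous G) (hG' : Continuous G.symm) {C : ℝ}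
    {w : ℝ × ℝ} (hw : w ≠ 0) (h : ∀ (j : ℤ) z, ‖(G ^ j) z - z - (j : ℝ) • w‖ ≤ C)
    {B : Set (ℝ × ℝ)} (hB : Convex ℝ B) (hfree : Disjoint (G '' B) B) {j j' : ℤ} (hj : j ≠ j') :
    Disjoint ((G ^ j) '' B) ((G ^ j') '' B) := by
  have key : ∀ k : ℕ, 1 ≤ k → ∀ p ∈ B, ∀ q ∈ B, (G ^ k) p ≠ q := by
    intro k hk p hp q hq e
    have hmem : ∀ s ∈ Icc (0 : ℝ) 1, p + s • (q - p) ∈ B := fun s hs =>
      hB.add_smul_sub_mem hp hq hs
    refine chord' hG hG' hw h (c := fun s : ℝ => p + s • (q - p)) (by fun_prop)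
      (fun s hs t ht e' => ?_) k hk 0 (by simp) 1 (by simp) (by simpa using e)
    exact Set.disjoint_left.1 hfree ⟨_, hmem s hs, e'⟩ (hmem t ht)
  have key2 : ∀ j j' : ℤ, j < j' → Disjoint ((G ^ j) '' B) ((G ^ j') '' B) := by
    intro j j' hlt
    rw [Set.disjoint_left]
    rintro _ ⟨p, hp, rfl⟩ ⟨q, hq, e⟩
    obtain ⟨k, hk⟩ := Int.eq_ofNat_of_zero_le (a := j' - j) (by omega)
    refine key k (by omega) q hq p hp ?_
    rw [← zpow_natCast, ← hk, sub_eq_neg_add, zpow_add, Equiv.Perm.mul_apply, e, zpow_neg, inv_self']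
  rcases lt_or_gt_of_ne hj with h1 | h1
  · exact key2 j j' h1
  · exact (key2 j' j h1).symm

end Pool.Agent.Helper18_AR
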